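import Pool.Agent.Q41.SU.Stm2

/-!
# SU-C4: digits
-/

set_option autoImplicit false

namespace Pool.Agent.Q24.SU

open Finset Polynomial Pool.Agent.Q41.SU

universe u

section

variable {k E Λ : Type u} [Field k] [Field E] [Algebra k E] [NormedField Λ] [IsUltrametricDist Λ]
  [Algebra k Λ] {ι : E →ₐ[k] Λ} {e : ℕ} {u : E → ℤ}

theorem um (x y : Λ) : ‖x - y‖ ≤ max ‖x‖ ‖y‖ := by
  have h := IsUltrametricDist.norm_add_le_max x (-y)
  rwa [norm_neg, ← sub_eq_add_neg] at h

open Classical in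
/-- the digit -/
noncomputable def dg (ι : E →ₐ[k] Λ) (x : E) : k :=
  if h : ∃ c : k, ‖ι x - algebraMap k Λ c‖ < 1 then h.choose else 0

theorem dg_spec (hp : IsPl k ι e u) {x : E} (hx : ‖ι x‖ ≤ 1) :
    ‖ι x - algebraMap k Λ (dg ι x)‖ < 1 := by
  unfold dg
  rw [dif_pos (hp.digit x hx)]
  exact (hp.digit x hx).choose_spec

/-- the remainder -/
noncomputable def rm (ι : E →ₐ[k] Λ) (π x : E) : E := (x - algebraMap k E (dg ι x)) / π

theorem norm_pi (hp : IsPl k ι e u) {π : E} (h0 : π ≠ 0) (h1 : u π = 1) :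
    ‖ι π‖ = Real.exp (-(1 / e)) := by
  rw [hp.norm π h0, h1, Int.cast_one]

theorem le_pi (hp : IsPl k ι e u) {π : E} (h0 : π ≠ 0) (h1 : u π = 1) {x : E} (hx : ‖ι x‖ < 1) :
    ‖ι x‖ ≤ ‖ι π‖ := by
  by_cases hx0 : x = 0
  · rw [hx0, map_zero, norm_zero]
    exact norm_nonneg _
  · have he : (0 : ℝ) < e := by exact_mod_cast hp.he
    rw [norm_pi hp h0 h1]
    rw [hp.norm x hx0] at hx ⊢
    rw [← Real.exp_zero, Real.exp_lt_exp, neg_lt_zero] at hx
    rw [Real.exp_le_exp, neg_le_neg_iff]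
    have h2 : 0 < (u x : ℝ) := by
      by_contra hcon
      exact absurd hx (not_lt.2 (div_nonpos_of_nonpos_of_nonneg (not_lt.1 hcon) he.le))
    have h3 : (1 : ℝ) ≤ u x := by
      have : 0 < u x := by exact_mod_cast h2
      exact_mod_cast this
    exact div_le_div_of_nonneg_right h3 he.le

theorem rm_int (hp : IsPl k ι e u) {π : E} (h0 : π ≠ 0) (h1 : u π = 1) {x : E} (hx : ‖ι x‖ ≤ 1) :
    ‖ι (rm ι π x)‖ ≤ 1 := by
  unfold rm
  rw [map_div₀, norm_div]
  have h2 : ‖ι (x - algebraMap k E (dg ι x))‖ < 1 := by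
    rw [map_sub, AlgHom.commutes]
    exact dg_spec hp hx
  have hpi : 0 < ‖ι π‖ := by
    rw [norm_pi hp h0 h1]
    exact Real.exp_pos _
  rw [div_le_one hpi]
  exact le_pi hp h0 h1 h2

theorem rm_eq {π : E} (h0 : π ≠ 0) (x : E) : x = algebraMap k E (dg ι x) + π * rm ι π x := by
  unfold rm
  field_simp
  ring

theorem it_int (hp : IsPl k ι e u) {π : E} (h0 : π ≠ 0) (h1 : u π = 1) {x : E} (hx : ‖ι x‖ ≤ 1)
    (i : ℕ) : ‖ι ((rm ι π)^[i] x)‖ ≤ 1 := by
  induction i with
  | zero => exact hx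
  | succ i ih =>
    rw [Function.iterate_succ_apply']
    exact rm_int hp h0 h1 ih

theorem it_eq {π : E} (h0 : π ≠ 0) (x : E) (M : ℕ) :
    x = ∑ i ∈ range M, algebraMap k E (dg ι ((rm ι π)^[i] x)) * π ^ i + π ^ M * (rm ι π)^[M] x := by
  induction M with
  | zero => simp
  | succ M ih =>
    rw [sum_range_succ, Function.iterate_succ_apply']
    have h2 := rm_eq (ι := ι) h0 ((rm ι π)^[M] x)
    calc x = _ := ih
      _ = ∑ i ∈ range M, algebraMap k E (dg ι ((rm ι π)^[i] x)) * π ^ i +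
          π ^ M * (algebraMap k E (dg ι ((rm ι π)^[M] x)) + π * rm ι π ((rm ι π)^[M] x)) := by
        rw [← h2]
      _ = _ := by ring

theorem dig_one (hc : ∀ c : k, c ≠ 0 → ‖algebraMap k Λ c‖ = 1) (hp : IsPl k ι e u) {x y : E}
    (hx : ‖ι x‖ ≤ 1) (hy : ‖ι y‖ ≤ 1) (h : ‖ι (x - y)‖ < 1) : dg ι x = dg ι y := by
  by_contra hne
  have h1 := hc _ (sub_ne_zero.2 hne)
  have h2 := dg_spec hp hx
  have h3 := dg_spec hp hy
  have h4 : algebraMap k Λ (dg ι x - dg ι y) = (ι (x - y)) -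
      ((ι x - algebraMap k Λ (dg ι x)) - (ι y - algebraMap k Λ (dg ι y))) := by
    rw [map_sub, map_sub]
    ring
  rw [h4] at h1
  have h5 := um (ι (x - y)) ((ι x - algebraMap k Λ (dg ι x)) - (ι y - algebraMap k Λ (dg ι y)))
  have h6 := um (ι x - algebraMap k Λ (dg ι x)) (ι y - algebraMap k Λ (dg ι y))
  rw [h1] at h5
  rcases le_max_iff.1 h5 with h7 | h7
  · linarith
  · rcases le_max_iff.1 (h7.trans h6) with h8 | h8 <;> linarith

theorem diff_eq {π : E} (h0 : π ≠ 0) {x y : E} {i : ℕ}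
    (h : ∀ j < i, dg ι ((rm ι π)^[j] x) = dg ι ((rm ι π)^[j] y)) :
    x - y = π ^ i * ((rm ι π)^[i] x - (rm ι π)^[i] y) := by
  have h1 := it_eq (ι := ι) h0 x i
  have h2 := it_eq (ι := ι) h0 y i
  have h3 : ∑ j ∈ range i, algebraMap k E (dg ι ((rm ι π)^[j] x)) * π ^ j =
      ∑ j ∈ range i, algebraMap k E (dg ι ((rm ι π)^[j] y)) * π ^ j :=
    sum_congr rfl fun j hj => by rw [h j (mem_range.1 hj)]
  calc x - y = (∑ j ∈ range i, algebraMap k E (dg ι ((rm ι π)^[j] x)) * π ^ j +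
        π ^ i * (rm ι π)^[i] x) - (∑ j ∈ range i, algebraMap k E (dg ι ((rm ι π)^[j] y)) * π ^ j +
        π ^ i * (rm ι π)^[i] y) := by rw [← h1, ← h2]
    _ = _ := by rw [h3]; ring

theorem norm_pi_pow (hp : IsPl k ι e u) {π : E} (h0 : π ≠ 0) (h1 : u π = 1) (i : ℕ) :
    ‖ι π‖ ^ i = Real.exp (-((i : ℝ) / e)) := by
  rw [norm_pi hp h0 h1, ← Real.exp_nat_mul]
  congr 1
  ring

end

theorem t_dig : S_dig := by
  intro k E Λ _ _ _ _ _ _ hc ι e u hp J _ z hz hzi M
  obtain ⟨π, h0, h1⟩ := hp.unif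
  have he : (0 : ℝ) < e := by exact_mod_cast hp.he
  refine ⟨π, fun i l => dg ι ((rm ι π)^[i] (z l)), fun l => (rm ι π)^[M] (z l), h0, h1,
    fun l => it_int hp h0 h1 (hzi l) M, fun l => it_eq h0 (z l) M, fun i _ l m => ?_⟩
  constructor
  · intro h
    by_cases hlm : m = l
    · exact Or.inl hlm
    · right
      have h2 := diff_eq (ι := ι) h0 (x := z l) (y := z m) (i := i) (fun j hj => (h j hj).symm)
      have hne : z l - z m ≠ 0 := sub_ne_zero.2 fun h' => hlm (hz h').symm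
      have h3 : ‖ι (z l - z m)‖ ≤ ‖ι π‖ ^ i := by
        rw [h2, map_mul, norm_mul, map_pow, norm_pow]
        refine mul_le_of_le_one_right (pow_nonneg (norm_nonneg _) _) ?_
        rw [map_sub]
        exact (um _ _).trans (max_le (it_int hp h0 h1 (hzi l) i) (it_int hp h0 h1 (hzi m) i))
      rw [norm_pi_pow hp h0 h1, hp.norm _ hne, Real.exp_le_exp, neg_le_neg_iff,
        div_le_div_iff_of_pos_right he] at h3
      exact_mod_cast h3
  · rintro (rfl | h)
    · intro j _
      rfl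
    · by_cases hlm : m = l
      · subst hlm
        intro j _
        rfl
      have hne : z l - z m ≠ 0 := sub_ne_zero.2 fun h' => hlm (hz h').symm
      have key : ∀ n ≤ i, ∀ j < n, dg ι ((rm ι π)^[j] (z l)) = dg ι ((rm ι π)^[j] (z m)) := by
        intro n
        induction n with
        | zero => intro _ j hj; omega
        | succ n ih =>
          intro hn j hj
          rcases Nat.lt_succ_iff_lt_or_eq.1 hj with hj | rfl
          · exact ih (by omega) j hj
          · have h2 := diff_eq (ι := ι) h0 (x := z l) (y := z m) (i := j) (ih (by omega))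
            refine dig_one hc hp (it_int hp h0 h1 (hzi l) j) (it_int hp h0 h1 (hzi m) j) ?_
            have h3 : ‖ι (z l - z m)‖ = ‖ι π‖ ^ j *
                ‖ι ((rm ι π)^[j] (z l) - (rm ι π)^[j] (z m))‖ := by
              conv_lhs => rw [h2]
              rw [map_mul, norm_mul, map_pow, norm_pow]
            rw [hp.norm _ hne, norm_pi_pow hp h0 h1] at h3
            by_contra hcon
            push Not at hcon
            have h4 : Real.exp (-((j : ℝ) / e)) ≤ Real.exp (-((u (z l - z m) : ℝ) / e)) := by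
              rw [h3]
              exact le_mul_of_one_le_right (Real.exp_pos _).le hcon
            rw [Real.exp_le_exp, neg_le_neg_iff, div_le_div_iff_of_pos_right he] at h4
            have h5 : u (z l - z m) ≤ (j : ℤ) := by exact_mod_cast h4
            omega
      exact fun j hj => (key i le_rfl j hj).symm

end Pool.Agent.Q24.SU
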