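import Pool.Agent.Q24.SU.Pl
import Pool.Agent.Q41.SU.Stm3

/-!
# SU-T7: the bounds at a place for original coordinates
-/

set_option autoImplicit false
set_option linter.unusedSectionVars false
set_option linter.unusedVariables false

namespace Pool.Agent.Q24.SU

open Finset Polynomial Pool.Agent.Q41.SU

universe u

section

variable {k E Λ : Type u} [Field k] [Field E] [Algebra k E] [NormedField Λ] [IsUltrametricDist Λ]
  [Algebra k Λ]

/-- the image of a Moebius map -/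
def mbm (ψ : E →ₐ[k] Λ) (m : Mb E) : Mb Λ := ⟨ψ m.α, ψ m.β, ψ m.γ, ψ m.δ⟩

theorem mbm_det (ψ : E →ₐ[k] Λ) (m : Mb E) : (mbm ψ m).det = ψ m.det := by
  unfold mbm Mb.det
  simp only [map_sub, map_mul]

theorem mbm_den (ψ : E →ₐ[k] Λ) (m : Mb E) (x : E) : (mbm ψ m).den (ψ x) = ψ (m.den x) := by
  unfold mbm Mb.den
  simp only [map_add, map_mul]

theorem mbm_app (ψ : E →ₐ[k] Λ) (m : Mb E) (x : E) : (mbm ψ m).app (ψ x) = ψ (m.app x) := by
  unfold Mb.app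
  rw [mbm_den, map_div₀]
  unfold mbm
  simp only [map_add, map_mul]

theorem app_inj {m : Mb E} (hm : m.det ≠ 0) {x y : E} (hx : m.den x ≠ 0) (hy : m.den y ≠ 0)
    (h : m.app x = m.app y) : x = y := by
  unfold Mb.app at h
  rw [div_eq_div_iff hx hy] at h
  unfold Mb.den at h
  unfold Mb.det at hm
  have h1 : (m.α * m.δ - m.β * m.γ) * (x - y) = 0 := by linear_combination h
  exact sub_eq_zero.1 ((mul_eq_zero.1 h1).resolve_left hm)

theorem app_injective {J : Type} {m : Mb E} (hm : m.det ≠ 0) {x : J → E} (hx : Function.Injective x)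
    (hd : ∀ l, m.den (x l) ≠ 0) : Function.Injective fun l => m.app (x l) :=
  fun i j h => hx (app_inj hm (hd i) (hd j) h)

theorem cvt_eq {J : Type} [Fintype J] [DecidableEq J] (ψ : E →ₐ[k] Λ) {e : ℕ} {u : E → ℤ} {K : ℝ}
    (hψ : ∀ w, w ≠ 0 → -Real.log ‖ψ w‖ = K * ((u w : ℝ) / e)) {m : Mb E} (hm : m.det ≠ 0) {x : J → E}
    (hx : Function.Injective x) (hd : ∀ l, m.den (x l) ≠ 0) :
    ((∑ l, ∑ j ∈ univ.erase l, -Real.log ‖ψ (x l) - ψ (x j)‖) -
      ∑ l, ∑ j ∈ univ.erase l, -Real.log ‖(mbm ψ m).app (ψ (x l)) - (mbm ψ m).app (ψ (x j))‖) =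
      K * cvt e u x (fun l => m.app (x l)) := by
  unfold cvt
  rw [mul_sub, mul_sum, mul_sum]
  congr 1
  · refine sum_congr rfl fun l _ => ?_
    rw [mul_sum]
    refine sum_congr rfl fun j hj => ?_
    rw [← map_sub, hψ _ (sub_ne_zero.2 fun h => (mem_erase.1 hj).1 (hx h).symm)]
  · refine sum_congr rfl fun l _ => ?_
    rw [mul_sum]
    refine sum_congr rfl fun j hj => ?_
    rw [mbm_app, mbm_app, ← map_sub, hψ _ (sub_ne_zero.2 fun h => (mem_erase.1 hj).1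
      (app_injective hm hx hd h).symm)]

theorem cov1 (hC : S_covn.{u}) (ψ : E →ₐ[k] Λ) {e : ℕ} {u : E → ℤ} {K : ℝ}
    (hψ : ∀ w, w ≠ 0 → -Real.log ‖ψ w‖ = K * ((u w : ℝ) / e)) {a b : ℕ} (hab : 1 ≤ a + b)
    {m : Mb E} (hm : m.det ≠ 0) {x : II a b → E}
    (hx : Function.Injective x) (hd : ∀ l, m.den (x l) ≠ 0) (y : II a b → Λ) :
    ‖bd a b (fun l => ψ (x l)) y‖ = Real.exp (-((a : ℝ) / (2 * ((a + 1) * (b + 1) - 1)) *
        (K * cvt e u x (fun l => m.app (x l))))) * ‖bd a b (fun l => ψ (m.app (x l))) y‖ ∧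
    ‖bd a b y (fun l => ψ (x l))‖ = Real.exp (-((b : ℝ) / (2 * ((a + 1) * (b + 1) - 1)) *
        (K * cvt e u x (fun l => m.app (x l))))) * ‖bd a b y (fun l => ψ (m.app (x l)))‖ := by
  have hdet : (mbm ψ m).det ≠ 0 := by
    rw [mbm_det]
    exact (map_ne_zero ψ).2 hm
  have hden : ∀ l, (mbm ψ m).den (ψ (x l)) ≠ 0 := fun l => by
    rw [mbm_den]
    exact (map_ne_zero ψ).2 (hd l)
  have hinj : Function.Injective fun l => ψ (x l) := fun i j h => hx (ψ.toRingHom.injective h)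
  obtain ⟨h1, h2⟩ := hC Λ a b hab (mbm ψ m) hdet (fun l => ψ (x l)) y hinj hden
  rw [cvt_eq ψ hψ hm hx hd] at h1 h2
  simp only [mbm_app] at h1 h2
  exact ⟨h1, h2⟩

theorem log_iota {ι : E →ₐ[k] Λ} {e : ℕ} {u : E → ℤ} (hp : IsPl k ι e u) (w : E) (hw : w ≠ 0) :
    -Real.log ‖ι w‖ = 1 * ((u w : ℝ) / e) := by
  rw [hp.norm w hw, Real.log_exp]
  ring

theorem log_Phi {ι : E →ₐ[k] Λ} {e : ℕ} {u : E → ℤ} (hp : IsPl k ι e u) {Φ : Λ →ₐ[k] Λ} {Θ : ℕ}
    (hΦ : ∀ x, ‖Φ x‖ = ‖x‖ ^ Θ) (w : E) (hw : w ≠ 0) :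
    -Real.log ‖(Φ.comp ι) w‖ = Θ * ((u w : ℝ) / e) := by
  rw [AlgHom.comp_apply, hΦ, Real.log_pow, hp.norm w hw, Real.log_exp]
  ring

end

theorem t_pair (h1 : S_plw.{u}) (h2 : S_pli.{u}) (h3 : S_plv.{u}) (h4 : S_covn.{u}) :
    S_pair.{u} := by
  intro k E Λ _ _ _ _ _ _ hc ι e u hp ι' e' u' hp' a b Θ M hab hΘ x x' hx hx' m m' hm hm' hd hd'
    hi hi' Φ hΦ
  have hz := app_injective hm hx hd
  have hz' := app_injective hm' hx' hd'
  refine ⟨fun y hy => ?_, ?_, ?_⟩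
  · obtain ⟨a1, a2⟩ := cov1 h4 ι (log_iota hp) hab hm hx hd y
    obtain ⟨b1, b2⟩ := h3 k E Λ hc ι e u hp a b M (fun l => m.app (x l)) hz hi y hy
    constructor
    · rw [a1, neg_add, Real.exp_add, one_mul]
      exact mul_le_mul_of_nonneg_left b1 (Real.exp_pos _).le
    · rw [a2, neg_add, Real.exp_add, one_mul]
      exact mul_le_mul_of_nonneg_left b2 (Real.exp_pos _).le
  · obtain ⟨a1, _⟩ := cov1 h4 ι (log_iota hp) hab hm hx hd (fun l => Φ (ι' (x' l)))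
    obtain ⟨_, a2⟩ := cov1 h4 (Φ.comp ι') (log_Phi hp' hΦ) hab hm' hx' hd'
      (fun l => ι (m.app (x l)))
    have b1 := h2 k E Λ hc ι e u hp ι' e' u' hp' a b Θ M (fun l => m.app (x l))
      (fun l => m'.app (x' l)) hz hz' hi hi' Φ hΦ
    simp only [AlgHom.comp_apply] at a2
    rw [a1, a2, ← mul_assoc, ← Real.exp_add]
    refine (mul_le_mul_of_nonneg_left b1 (Real.exp_pos _).le).trans (le_of_eq ?_)
    rw [← Real.exp_add]
    congr 1
    ring
  · obtain ⟨a1, _⟩ := cov1 h4 ι (log_iota hp) hab hm hx hd (fun l => Φ (ι (x l)))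
    obtain ⟨_, a2⟩ := cov1 h4 (Φ.comp ι) (log_Phi hp hΦ) hab hm hx hd
      (fun l => ι (m.app (x l)))
    have b1 := h1 k E Λ hc ι e u hp a b Θ M (fun l => m.app (x l)) hz hi Φ hΦ
    simp only [AlgHom.comp_apply] at a2
    rw [a1, a2, ← mul_assoc, ← Real.exp_add]
    refine (mul_le_mul_of_nonneg_left b1 (Real.exp_pos _).le).trans (le_of_eq ?_)
    rw [← Real.exp_add]
    congr 1
    ring

end Pool.Agent.Q24.SU
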