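import Pool.Agent.Q41.SU.Stm5

/-!
# SU-N3: pull-backs
-/

set_option autoImplicit false
set_option linter.unusedVariables false
set_option linter.unusedSectionVars false

namespace Pool.Agent.Q24.SU

open Finset Polynomial Pool.Agent.Q41.SU

universe u

section

variable {E : Type u} [Field E]

/-- the coefficients have degree at most `b` -/
def CB (F : E[X][X]) (b : ℕ) : Prop := ∀ j, (F.coeff j).natDegree ≤ b

theorem CB_sum {ι : Type*} (s : Finset ι) (f : ι → E[X][X]) {b : ℕ} (h : ∀ i ∈ s, CB (f i) b) :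
    CB (∑ i ∈ s, f i) b := by
  intro j
  rw [finsetSum_coeff]
  exact natDegree_sum_le_of_forall_le _ _ fun i hi => h i hi j

theorem CB_mul {F G : E[X][X]} {b c : ℕ} (hF : CB F b) (hG : CB G c) : CB (F * G) (b + c) := by
  intro j
  rw [coeff_mul]
  exact natDegree_sum_le_of_forall_le _ _ fun x _ =>
    natDegree_mul_le.trans (Nat.add_le_add (hF _) (hG _))

theorem CB_one : CB (1 : E[X][X]) 0 := by
  intro j
  rw [coeff_one]
  split_ifs <;> simp

theorem CB_pow {F : E[X][X]} {b : ℕ} (hF : CB F b) (i : ℕ) : CB (F ^ i) (i * b) := by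
  induction i with
  | zero =>
    rw [pow_zero, zero_mul]
    exact CB_one
  | succ i ih =>
    rw [pow_succ, Nat.succ_mul]
    exact CB_mul ih hF

theorem CB_C {a : E[X]} {b : ℕ} (h : a.natDegree ≤ b) : CB (C a) b := by
  intro j
  rw [coeff_C]
  split_ifs
  · exact h
  · simp

theorem CB_lin {v w : E[X]} {b : ℕ} (hv : v.natDegree ≤ b) (hw : w.natDegree ≤ b) :
    CB (C v + C w * X) b := by
  intro j
  rw [coeff_add, coeff_C_mul, coeff_C, coeff_X]
  refine (natDegree_add_le _ _).trans (max_le ?_ ?_)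
  · split_ifs
    · exact hv
    · simp
  · split_ifs
    · simpa using hw
    · simp

theorem hcm_deg {H m : ℕ} {g P Q : E[X]} (hP : P.natDegree ≤ m) (hQ : Q.natDegree ≤ m) :
    (hcm H g P Q).natDegree ≤ H * m := by
  unfold hcm
  refine natDegree_sum_le_of_forall_le _ _ fun i hi => ?_
  have hi' : i ≤ H := Nat.lt_succ_iff.1 (mem_range.1 hi)
  refine natDegree_mul_le.trans ?_
  have h1 : (C (g.coeff i) * P ^ i).natDegree ≤ i * m :=
    (natDegree_C_mul_le _ _).trans ((natDegree_pow_le).trans (Nat.mul_le_mul_left _ hP))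
  have h2 : (Q ^ (H - i)).natDegree ≤ (H - i) * m :=
    (natDegree_pow_le).trans (Nat.mul_le_mul_left _ hQ)
  refine (Nat.add_le_add h1 h2).trans (le_of_eq ?_)
  rw [← Nat.add_mul]
  congr 1
  omega

theorem hcm_eval {H : ℕ} {g P Q : E[X]} (hg : g.natDegree ≤ H) {x : E} (hx : Q.eval x ≠ 0) :
    (hcm H g P Q).eval x = Q.eval x ^ H * g.eval (P.eval x / Q.eval x) := by
  unfold hcm
  rw [eval_finsetSum, eval_eq_sum_range' (Nat.lt_succ_of_le hg), mul_sum]
  refine sum_congr rfl fun i hi => ?_
  have hi' : i ≤ H := Nat.lt_succ_iff.1 (mem_range.1 hi)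
  rw [eval_mul, eval_mul, eval_C, eval_pow, eval_pow, div_pow]
  obtain ⟨j, rfl⟩ : ∃ j, H = j + i := ⟨H - i, by omega⟩
  rw [Nat.add_sub_cancel, pow_add]
  field_simp

theorem hcm_ne {H : ℕ} {g P Q : E[X]} (hg : g.natDegree ≤ H) (hg0 : g ≠ 0) (hco : IsCoprime P Q)
    (hQ : Q ≠ 0) (hdeg : 1 ≤ max P.natDegree Q.natDegree) : hcm H g P Q ≠ 0 := by
  intro h
  by_cases hQ0 : Q.natDegree = 0
  · rw [hQ0, max_eq_left (Nat.zero_le _)] at hdeg
    obtain ⟨c, hc⟩ : ∃ c, Q = C c := ⟨Q.coeff 0, eq_C_of_natDegree_eq_zero hQ0⟩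
    have hc0 : c ≠ 0 := by
      rintro rfl
      exact hQ (by rw [hc, map_zero])
    set g' : E[X] := ∑ i ∈ range (H + 1), C (g.coeff i * c ^ (H - i)) * X ^ i with hg'
    have h1 : hcm H g P Q = g'.comp P := by
      unfold hcm
      rw [hg', Polynomial.comp, eval₂_finsetSum]
      refine sum_congr rfl fun i _ => ?_
      rw [eval₂_mul, eval₂_C, eval₂_pow, eval₂_X, hc, ← C_pow, C_mul]
      ring
    have h2 : g' ≠ 0 := by
      intro h3
      have h4 := congrArg (fun f : E[X] => f.coeff g.natDegree) h3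
      simp only [hg', finsetSum_coeff, coeff_C_mul, coeff_X_pow, mul_ite, mul_one, mul_zero,
        coeff_zero] at h4
      rw [Finset.sum_ite_eq (range (H + 1)) g.natDegree, if_pos (mem_range.2 (Nat.lt_succ_of_le hg))]
        at h4
      exact mul_ne_zero (leadingCoeff_ne_zero.2 hg0) (pow_ne_zero _ hc0) h4
    rw [h1, comp_eq_zero_iff] at h
    rcases h with h | ⟨_, h⟩
    · exact h2 h
    · rw [h, natDegree_C] at hdeg
      omega
  · set e := g.natDegree with he
    have h1 : hcm H g P Q = Q ^ (H - e) * ∑ i ∈ range (e + 1), C (g.coeff i) * P ^ i * Q ^ (e - i) := by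
      unfold hcm
      rw [mul_sum]
      symm
      refine Finset.sum_subset_zero_on_sdiff (range_subset_range.2 (by omega)) ?_ ?_
      · intro i hi
        rw [mem_sdiff, mem_range, mem_range] at hi
        rw [coeff_eq_zero_of_natDegree_lt (by omega), map_zero, zero_mul, zero_mul]
      · intro i hi
        rw [mem_range] at hi
        have : H - i = (H - e) + (e - i) := by omega
        rw [this, pow_add]
        ring
    rw [h1] at h
    have h2 := (mul_eq_zero.1 h).resolve_left (pow_ne_zero _ hQ)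
    rw [sum_range_succ, Nat.sub_self, pow_zero, mul_one] at h2
    have h3 : Q ∣ C (g.coeff e) * P ^ e := by
      rw [← dvd_add_right (a := Q) (b := ∑ i ∈ range e, C (g.coeff i) * P ^ i * Q ^ (e - i)), h2]
      · exact dvd_zero _
      · refine Finset.dvd_sum fun i hi => ?_
        rw [mem_range] at hi
        exact (dvd_pow_self Q (by omega)).mul_left _
    have h4 : Q ∣ C (g.coeff e) := (hco.symm.pow_right).dvd_of_dvd_mul_right h3
    have h5 : IsUnit (C (g.coeff e) : E[X]) := isUnit_C.2 (isUnit_iff_ne_zero.2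
      (leadingCoeff_ne_zero.2 hg0))
    exact hQ0 (natDegree_eq_zero_of_isUnit (isUnit_of_dvd_unit h4 h5))

theorem wr_ne [CharZero E] {P Q : E[X]} (hco : IsCoprime P Q)
    (hdeg : 1 ≤ max P.natDegree Q.natDegree) : wr P Q ≠ 0 := by
  intro h
  unfold wr at h
  have h1 : derivative P * Q = P * derivative Q := sub_eq_zero.1 h
  have hQ : derivative Q = 0 := by
    by_contra hne
    have h2 : Q ∣ derivative Q := hco.symm.dvd_of_dvd_mul_left ⟨derivative P, by rw [← h1]; ring⟩
    have h3 := natDegree_le_of_dvd h2 hne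
    have h4 : Q.natDegree ≠ 0 := by
      intro h5
      exact hne (by rw [eq_C_of_natDegree_eq_zero h5, derivative_C])
    have := natDegree_derivative_lt h4
    omega
  have hP : derivative P = 0 := by
    by_contra hne
    have h2 : P ∣ derivative P := hco.dvd_of_dvd_mul_right ⟨derivative Q, h1⟩
    have h3 := natDegree_le_of_dvd h2 hne
    have h4 : P.natDegree ≠ 0 := by
      intro h5
      exact hne (by rw [eq_C_of_natDegree_eq_zero h5, derivative_C])
    have := natDegree_derivative_lt h4
    omega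
  have h5 := derivative_eq_zero.1 hP
  have h6 := derivative_eq_zero.1 hQ
  rw [h5, h6] at hdeg
  simp at hdeg

variable {k : Type u} [Field k] [Algebra k E] (D : Derivation k E E)

theorem cD_deg (P : E[X]) : (cD D P).natDegree ≤ P.natDegree := by
  unfold cD
  refine natDegree_sum_le_of_forall_le _ _ fun i hi => ?_
  exact (natDegree_C_mul_X_pow_le _ _).trans (Nat.lt_succ_iff.1 (mem_range.1 hi))

theorem D_eval (P : E[X]) (x : E) :
    D (P.eval x) = (cD D P).eval x + (derivative P).eval x * D x := by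
  have h1 : (cD D P).eval x = ∑ i ∈ range (P.natDegree + 1), D (P.coeff i) * x ^ i := by
    unfold cD
    rw [eval_finsetSum]
    exact sum_congr rfl fun i _ => by rw [eval_mul, eval_C, eval_pow, eval_X]
  have h2 : (derivative P).eval x = ∑ i ∈ range (P.natDegree + 1), P.coeff i * i * x ^ (i - 1) := by
    conv_lhs => rw [P.as_sum_range_C_mul_X_pow]
    rw [derivative_sum, eval_finsetSum]
    refine sum_congr rfl fun i _ => ?_
    rw [derivative_C_mul_X_pow, eval_mul, eval_C, eval_pow, eval_X]
  rw [eval_eq_sum_range, map_sum, h1, h2, sum_mul, ← sum_add_distrib]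
  refine sum_congr rfl fun i _ => ?_
  rw [D.leibniz, D.leibniz_pow, smul_eq_mul, smul_eq_mul, nsmul_eq_mul, smul_eq_mul]
  ring

theorem D_quot {P Q : E[X]} {x : E} (hx : Q.eval x ≠ 0) :
    Q.eval x ^ 2 * D (P.eval x / Q.eval x) = (vd D P Q).eval x + (wr P Q).eval x * D x := by
  have h1 : D (P.eval x / Q.eval x * Q.eval x) = D (P.eval x) := by rw [div_mul_cancel₀ _ hx]
  rw [D.leibniz, smul_eq_mul, smul_eq_mul, D_eval D P, D_eval D Q] at h1
  unfold vd wr
  rw [eval_sub, eval_mul, eval_mul, eval_sub, eval_mul, eval_mul]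
  have h2 : P.eval x / Q.eval x * Q.eval x = P.eval x := div_mul_cancel₀ _ hx
  linear_combination (Q.eval x) * h1 - ((cD D Q).eval x + (derivative Q).eval x * D x) * h2

theorem evalEval_eq (G : E[X][X]) {β : ℕ} (hG : G.natDegree ≤ β) (y z : E) :
    G.evalEval y z = ∑ i ∈ range (β + 1), (G.coeff i).eval y * z ^ i := by
  unfold evalEval
  rw [eval_eq_sum_range' (Nat.lt_succ_of_le hG), eval_finsetSum]
  exact sum_congr rfl fun i _ => by rw [eval_mul, eval_pow, eval_C]

end

theorem t_pb (hit : S_it.{u}) : S_pb.{u} := by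
  intro k E _ _ _ _ D d p q hd hp hq hco β H n G hG hGc
  obtain ⟨i1, i2, i3, _, i5⟩ := hit E d p q hd hp hq hco n
  set P := (itr d p q n).1 with hPdef
  set Q := (itr d p q n).2 with hQdef
  have hPm : P.natDegree ≤ d ^ n := by rw [← i3]; exact le_max_left _ _
  have hQm : Q.natDegree ≤ d ^ n := by rw [← i3]; exact le_max_right _ _
  have hmax : 1 ≤ max P.natDegree Q.natDegree := by rw [i3]; exact Nat.one_le_pow _ _ hd
  have hvd : (vd D P Q).natDegree ≤ 2 * d ^ n := by
    unfold vd
    refine (natDegree_sub_le _ _).trans (max_le ?_ ?_)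
    · refine natDegree_mul_le.trans ?_
      have := cD_deg D P
      omega
    · refine natDegree_mul_le.trans ?_
      have := cD_deg D Q
      omega
  have hwr : (wr P Q).natDegree ≤ 2 * d ^ n := by
    unfold wr
    refine (natDegree_sub_le _ _).trans (max_le ?_ ?_)
    · refine natDegree_mul_le.trans ?_
      have := natDegree_derivative_le P
      omega
    · refine natDegree_mul_le.trans ?_
      have := natDegree_derivative_le Q
      omega
  have hlin : ∀ i, ((C (vd D P Q) + C (wr P Q) * X) ^ i : E[X][X]).natDegree ≤ i := by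
    intro i
    refine natDegree_pow_le.trans ?_
    have h1 : (C (vd D P Q) + C (wr P Q) * X : E[X][X]).natDegree ≤ 1 := by
      rw [add_comm]
      exact natDegree_linear_le
    calc i * _ ≤ i * 1 := Nat.mul_le_mul_left _ h1
      _ = i := mul_one i
  refine ⟨?_, ?_, ?_, ?_⟩
  · unfold pb
    refine natDegree_sum_le_of_forall_le _ _ fun i hi => ?_
    refine (natDegree_C_mul_le _ _).trans ((hlin i).trans ?_)
    exact Nat.lt_succ_iff.1 (mem_range.1 hi)
  · unfold pb
    refine CB_sum _ _ fun i hi => ?_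
    have hi' : i ≤ β := Nat.lt_succ_iff.1 (mem_range.1 hi)
    have h1 : (Q ^ (2 * (β - i)) * hcm H (G.coeff i) P Q).natDegree ≤
        2 * (β - i) * d ^ n + H * d ^ n :=
      natDegree_mul_le.trans (Nat.add_le_add (natDegree_pow_le.trans (Nat.mul_le_mul_left _ hQm))
        (hcm_deg hPm hQm))
    have h2 := CB_mul (CB_C h1) (CB_pow (CB_lin hvd hwr) i)
    intro j
    refine (h2 j).trans (le_of_eq ?_)
    obtain ⟨l, rfl⟩ : ∃ l, β = l + i := ⟨β - i, by omega⟩
    rw [Nat.add_sub_cancel]
    ring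
  · intro hβ
    have h1 : (pb D d p q β H n G).coeff β = hcm H (G.coeff β) P Q * wr P Q ^ β := by
      unfold pb
      rw [finsetSum_coeff, sum_range_succ, sum_eq_zero, zero_add]
      · rw [coeff_C_mul, Nat.sub_self, mul_zero, pow_zero, one_mul]
        congr 1
        have h2 : (C (vd D P Q) + C (wr P Q) * X : E[X][X]).natDegree ≤ 1 := by
          rw [add_comm]
          exact natDegree_linear_le
        have h3 := coeff_pow_of_natDegree_le (m := β) h2
        rw [mul_one] at h3
        rw [h3]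
        simp
      · intro i hi
        rw [mem_range] at hi
        rw [coeff_C_mul, coeff_eq_zero_of_natDegree_lt (lt_of_le_of_lt (hlin i) hi), mul_zero]
    rw [h1]
    exact mul_ne_zero (hcm_ne (hGc β) hβ i1 i2 hmax) (pow_ne_zero _ (wr_ne i1 hmax))
  · intro S hS x hx
    obtain ⟨j1, j2⟩ := i5 S hS
    have hQx : Q.eval x ≠ 0 := (j1 x hx).1
    have hval := j2 x hx
    rw [← hval, evalEval_eq G hG, mul_sum]
    unfold pb evalEval
    rw [eval_finsetSum, eval_finsetSum]
    refine sum_congr rfl fun i hi => ?_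
    have hi' : i ≤ β := Nat.lt_succ_iff.1 (mem_range.1 hi)
    have h1 := D_quot D (P := P) (Q := Q) hQx
    rw [← hPdef, ← hQdef]
    simp only [eval_mul, eval_C, eval_pow, eval_add, eval_X]
    rw [← h1, hcm_eval (hGc i) hQx]
    obtain ⟨l, rfl⟩ : ∃ l, β = l + i := ⟨β - i, by omega⟩
    rw [Nat.add_sub_cancel]
    ring

end Pool.Agent.Q24.SU
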