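import Pool.Agent.Q24.SU.Dig

/-!
# SU-C5, C6, C7: the bounds at a place
-/

set_option autoImplicit false
set_option linter.unusedSectionVars false

namespace Pool.Agent.Q24.SU

open Finset Polynomial Pool.Agent.Q41.SU

universe u

section

variable {k E Λ : Type u} [Field k] [Field E] [Algebra k E] [NormedField Λ] [IsUltrametricDist Λ]
  [Algebra k Λ] {ι : E →ₐ[k] Λ} {e : ℕ} {u : E → ℤ}

/-- the classes of the digits are the classes of the order of contact -/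
theorem dcl_eq {J : Type} [Fintype J] [DecidableEq J] {c : ℕ → J → k} {z : J → E} {i : ℕ}
    (h : ∀ l m, (∀ j < i, c j m = c j l) ↔ (m = l ∨ (i : ℤ) ≤ u (z l - z m))) (l : J) :
    dcl (fun i l => algebraMap k Λ (c i l)) i l = cnt (fun l m => u (z l - z m)) i l := by
  unfold dcl cnt
  rw [← Set.ncard_coe_finset]
  congr 1
  ext m
  simp only [Set.mem_ofPred_eq, coe_filter, mem_univ, true_and]
  rw [← h l m]
  constructor
  · intro h' j hj
    exact (algebraMap k Λ).injective (h' j hj)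
  · intro h' j hj
    rw [h' j hj]

theorem LS_dcl {a b : ℕ} {J : Type} [Fintype J] [DecidableEq J] (F : ℕ → ℝ) {c : ℕ → J → k}
    {z : J → E} {M : ℕ} (h : ∀ i ≤ M, ∀ l m, (∀ j < i, c j m = c j l) ↔
      (m = l ∨ (i : ℤ) ≤ u (z l - z m))) :
    ∑ i ∈ Icc 1 M, ∑ l, F (dcl (fun i l => algebraMap k Λ (c i l)) i l) /
      (dcl (fun i l => algebraMap k Λ (c i l)) i l : ℝ) = LS F M (fun l m => u (z l - z m)) := by
  unfold LS
  refine sum_congr rfl fun i hi => sum_congr rfl fun l _ => ?_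
  rw [dcl_eq (h i (mem_Icc.1 hi).2)]

theorem iota_exp {J : Type} {c : ℕ → J → k} {z η : J → E} {π : E} {M : ℕ}
    (h : ∀ l, z l = ∑ i ∈ range M, algebraMap k E (c i l) * π ^ i + π ^ M * η l) (l : J) :
    ι (z l) = ∑ i ∈ range M, algebraMap k Λ (c i l) * (ι π) ^ i + (ι π) ^ M * ι (η l) := by
  conv_lhs => rw [h l]
  rw [map_add, map_sum, map_mul, map_pow]
  congr 1
  refine sum_congr rfl fun i _ => ?_
  rw [map_mul, map_pow, AlgHom.commutes]

theorem Phi_exp {J : Type} (Φ : Λ →ₐ[k] Λ) {c : ℕ → J → k} {z η : J → E} {π : E} {M : ℕ}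
    (h : ∀ l, z l = ∑ i ∈ range M, algebraMap k E (c i l) * π ^ i + π ^ M * η l) (l : J) :
    Φ (ι (z l)) = ∑ i ∈ range M, algebraMap k Λ (c i l) * (Φ (ι π)) ^ i +
      (Φ (ι π)) ^ M * Φ (ι (η l)) :=
  iota_exp (ι := Φ.comp ι) h l

theorem nc (hc : ∀ c : k, c ≠ 0 → ‖algebraMap k Λ c‖ = 1) (c : k) : ‖algebraMap k Λ c‖ ≤ 1 := by
  by_cases h : c = 0
  · rw [h, map_zero, norm_zero]
    exact zero_le_one
  · rw [hc c h]

theorem Phi_pi (hp : IsPl k ι e u) {π : E} (h0 : π ≠ 0) (h1 : u π = 1) {Φ : Λ →ₐ[k] Λ} {Θ : ℕ}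
    (hΦ : ∀ x, ‖Φ x‖ = ‖x‖ ^ Θ) : ‖Φ (ι π)‖ = Real.exp (-(Θ * (1 / e))) := by
  rw [hΦ, norm_pi hp h0 h1, ← Real.exp_nat_mul]
  congr 1
  ring

end

theorem t_plw (h1 : S_clw.{u}) : S_plw.{u} := by
  intro k E Λ _ _ _ _ _ _ hc ι e u hp a b Θ M z hz hzi Φ hΦ
  obtain ⟨π, c, η, h0, hu, hη, hexp, hcl⟩ := t_dig k E Λ hc ι e u hp (II a b) z hz hzi M
  have h2 := h1 Λ a b M 1 Θ (1 / e) (by positivity) (ι π) (Φ (ι π))
    (by rw [norm_pi hp h0 hu, Nat.cast_one, one_mul]) (by rw [Phi_pi hp h0 hu hΦ])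
    (fun i l => algebraMap k Λ (c i l)) (fun l => ι (η l)) (fun l => Φ (ι (η l)))
    (fun i l => nc hc _) hη (fun l => by
      rw [hΦ]
      exact pow_le_one₀ (norm_nonneg _) (hη l))
  have e1 : (fun l => ι (z l)) = fun l => ∑ i ∈ range M, algebraMap k Λ (c i l) * (ι π) ^ i +
      (ι π) ^ M * ι (η l) := funext fun l => iota_exp hexp l
  have e2 : (fun l => Φ (ι (z l))) = fun l => ∑ i ∈ range M, algebraMap k Λ (c i l) *
      (Φ (ι π)) ^ i + (Φ (ι π)) ^ M * Φ (ι (η l)) := funext fun l => Phi_exp Φ hexp l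
  rw [e1, e2]
  refine h2.trans (le_of_eq ?_)
  congr 2
  rw [LS_dcl (a := a) (b := b) (fun n => (phi 1 Θ a b n : ℝ)) hcl]
  ring

theorem t_pli (h1 : S_cli.{u}) : S_pli.{u} := by
  intro k E Λ _ _ _ _ _ _ hc ι e u hp ι' e' u' hp' a b Θ M z z' hz hz' hzi hzi' Φ hΦ
  obtain ⟨π, c, η, h0, hu, hη, hexp, hcl⟩ := t_dig k E Λ hc ι e u hp (II a b) z hz hzi M
  obtain ⟨π', c', η', h0', hu', hη', hexp', hcl'⟩ :=
    t_dig k E Λ hc ι' e' u' hp' (II a b) z' hz' hzi' M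
  have h2 := h1 Λ a b M M (1 / e) (Θ * (1 / e')) (by positivity) (by positivity) (ι π) (Φ (ι' π'))
    (by rw [norm_pi hp h0 hu]) (by rw [Phi_pi hp' h0' hu' hΦ])
    (fun i l => algebraMap k Λ (c i l)) (fun i l => algebraMap k Λ (c' i l))
    (fun l => ι (η l)) (fun l => Φ (ι' (η' l)))
    (fun i l => nc hc _) (fun i l => nc hc _) hη (fun l => by
      rw [hΦ]
      exact pow_le_one₀ (norm_nonneg _) (hη' l))
  have e1 : (fun l => ι (z l)) = fun l => ∑ i ∈ range M, algebraMap k Λ (c i l) * (ι π) ^ i +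
      (ι π) ^ M * ι (η l) := funext fun l => iota_exp hexp l
  have e2 : (fun l => Φ (ι' (z' l))) = fun l => ∑ i ∈ range M, algebraMap k Λ (c' i l) *
      (Φ (ι' π')) ^ i + (Φ (ι' π')) ^ M * Φ (ι' (η' l)) := funext fun l => Phi_exp Φ hexp' l
  rw [e1, e2]
  refine h2.trans (le_of_eq ?_)
  congr 2
  rw [LS_dcl (a := a) (b := b) (fun n => (phi 1 0 a b n : ℝ)) hcl,
    LS_dcl (a := a) (b := b) (fun n => (phi 0 1 a b n : ℝ)) hcl']
  ring

theorem t_plv (h1 : S_cli.{u}) : S_plv.{u} := by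
  intro k E Λ _ _ _ _ _ _ hc ι e u hp a b M z hz hzi y hy
  obtain ⟨π, c, η, h0, hu, hη, hexp, hcl⟩ := t_dig k E Λ hc ι e u hp (II a b) z hz hzi M
  have e1 : (fun l => ι (z l)) = fun l => ∑ i ∈ range M, algebraMap k Λ (c i l) * (ι π) ^ i +
      (ι π) ^ M * ι (η l) := funext fun l => iota_exp hexp l
  have e2 : y = fun l => ∑ i ∈ range 0, (0 : Λ) * (0 : Λ) ^ i + (0 : Λ) ^ 0 * y l := by
    funext l
    simp
  constructor
  · have h2 := h1 Λ a b M 0 (1 / e) 0 (by positivity) le_rfl (ι π) 0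
      (by rw [norm_pi hp h0 hu]) (by rw [norm_zero]; exact (Real.exp_pos _).le)
      (fun i l => algebraMap k Λ (c i l)) (fun i l => 0) (fun l => ι (η l)) y
      (fun i l => nc hc _) (fun i l => by rw [norm_zero]; exact zero_le_one) hη hy
    rw [e1]
    conv_lhs => rw [e2]
    refine h2.trans (le_of_eq ?_)
    congr 2
    rw [LS_dcl (a := a) (b := b) (fun n => (phi 1 0 a b n : ℝ)) hcl]
    ring
  · have h2 := h1 Λ a b 0 M 0 (1 / e) le_rfl (by positivity) 0 (ι π)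
      (by rw [norm_zero]; exact (Real.exp_pos _).le) (by rw [norm_pi hp h0 hu])
      (fun i l => 0) (fun i l => algebraMap k Λ (c i l)) y (fun l => ι (η l))
      (fun i l => by rw [norm_zero]; exact zero_le_one) (fun i l => nc hc _) hy hη
    rw [e1]
    conv_lhs => rw [e2]
    refine h2.trans (le_of_eq ?_)
    congr 2
    rw [LS_dcl (a := a) (b := b) (fun n => (phi 0 1 a b n : ℝ)) hcl]
    ring

end Pool.Agent.Q24.SU
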