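import Pool.Agent.Q24.SU.Dig
import Pool.Agent.Q41.SU.Stm3

/-!
# SU-T3: rational functions with poles in a finite set
-/

set_option autoImplicit false
set_option linter.unusedSectionVars false
set_option linter.unusedVariables false

namespace Pool.Agent.Q24.SU

open Finset Polynomial Pool.Agent.Q41.SU

universe u

section

variable {k Λ : Type u} [Field k] [NormedField Λ] [IsUltrametricDist Λ] [Algebra k Λ] {s : Λ}

theorem na (hA : IsAmb k Λ s) (c : k) : ‖algebraMap k Λ c‖ ≤ 1 := by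
  by_cases h : c = 0
  · rw [h, map_zero, norm_zero]
    exact zero_le_one
  · rw [hA.norm_c c h]

theorem norm_aeval_le (hA : IsAmb k Λ s) {x : Λ} (hx : ‖x‖ ≤ 1) (f : k[X]) : ‖aeval x f‖ ≤ 1 := by
  induction f using Polynomial.induction_on' with
  | add p q hp hq =>
    rw [map_add]
    exact (IsUltrametricDist.norm_add_le_max _ _).trans (max_le hp hq)
  | monomial n a =>
    rw [aeval_monomial, norm_mul, norm_pow]
    exact mul_le_one₀ (na hA a) (pow_nonneg (norm_nonneg _) _) (pow_le_one₀ (norm_nonneg _) hx)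

theorem norm_s_lt (hA : IsAmb k Λ s) : ‖s‖ < 1 := by
  rw [hA.norm_s, ← Real.exp_zero, Real.exp_lt_exp]
  norm_num

theorem s_ne (hA : IsAmb k Λ s) : s ≠ 0 := by
  intro h
  have := hA.norm_s
  rw [h, norm_zero] at this
  exact (Real.exp_pos _).ne this

theorem norm_near (hA : IsAmb k Λ s) (t₀ : k) (f : k[X]) :
    ‖aeval (algebraMap k Λ t₀ + s) f - algebraMap k Λ (f.eval t₀)‖ < 1 := by
  have h1 : (X - C t₀) ∣ f - C (f.eval t₀) := X_sub_C_dvd_sub_C_eval
  obtain ⟨g, hg⟩ := h1
  have h2 := congrArg (aeval (algebraMap k Λ t₀ + s)) hg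
  rw [map_sub, map_mul, map_sub, aeval_X, aeval_C, aeval_C, add_sub_cancel_left] at h2
  rw [h2, norm_mul]
  have h3 : ‖algebraMap k Λ t₀ + s‖ ≤ 1 :=
    (IsUltrametricDist.norm_add_le_max _ _).trans (max_le (na hA t₀) (norm_s_lt hA).le)
  calc ‖s‖ * ‖aeval (algebraMap k Λ t₀ + s) g‖ ≤ ‖s‖ * 1 :=
        mul_le_mul_of_nonneg_left (norm_aeval_le hA h3 g) (norm_nonneg _)
    _ < 1 := by rw [mul_one]; exact norm_s_lt hA

theorem norm_unit (hA : IsAmb k Λ s) {t₀ : k} {f : k[X]} (hf : f.eval t₀ ≠ 0) :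
    ‖aeval (algebraMap k Λ t₀ + s) f‖ = 1 := by
  have h1 := norm_near hA t₀ f
  have h2 := hA.norm_c _ hf
  have h3 : aeval (algebraMap k Λ t₀ + s) f = algebraMap k Λ (f.eval t₀) -
      (algebraMap k Λ (f.eval t₀) - aeval (algebraMap k Λ t₀ + s) f) := by ring
  refine le_antisymm ?_ ?_
  · rw [h3]
    refine (um _ _).trans (max_le h2.le ?_)
    rw [norm_sub_rev]
    exact h1.le
  · by_contra hcon
    push Not at hcon
    have h4 := um (aeval (algebraMap k Λ t₀ + s) f)
      (aeval (algebraMap k Λ t₀ + s) f - algebraMap k Λ (f.eval t₀))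
    rw [sub_sub_cancel, h2] at h4
    rcases le_max_iff.1 h4 with h5 | h5 <;> linarith

/-- the norm at infinity -/
theorem norm_inf (hA : IsAmb k Λ s) {f : k[X]} (hf : f ≠ 0) :
    ‖aeval s⁻¹ f‖ = Real.exp f.natDegree := by
  have hs := s_ne hA
  haveI : Invertible s⁻¹ := ⟨s, mul_inv_cancel₀ hs, inv_mul_cancel₀ hs⟩
  have h1 := Polynomial.eval₂_reverse_mul_pow (algebraMap k Λ) s⁻¹ f
  have h2 : ⅟(s⁻¹) = s := by
    rw [invOf_eq_inv, inv_inv]
  rw [h2] at h1
  have h3 : aeval s⁻¹ f = aeval s f.reverse * s⁻¹ ^ f.natDegree := by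
    rw [aeval_def, aeval_def]
    exact h1.symm
  have h4 : ‖aeval s f.reverse‖ = 1 := by
    have h5 := norm_unit hA (t₀ := 0) (f := f.reverse) (by
      rw [← coeff_zero_eq_eval_zero, coeff_zero_reverse]
      exact leadingCoeff_ne_zero.2 hf)
    rwa [map_zero, zero_add] at h5
  rw [h3, norm_mul, h4, one_mul, norm_pow, norm_inv, hA.norm_s, ← Real.exp_neg, neg_neg,
    ← Real.exp_nat_mul, mul_one]

theorem prod_dvd_pow {A : k[X]} (m : Multiset k[X]) (h : ∀ f ∈ m, f ∣ A) : m.prod ∣ A ^ m.card := by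
  induction m using Multiset.induction_on with
  | empty => simp
  | cons a m ih =>
    rw [Multiset.prod_cons, Multiset.card_cons, pow_succ']
    exact mul_dvd_mul (h a (Multiset.mem_cons_self _ _)) (ih fun f hf => h f
      (Multiset.mem_cons_of_mem hf))

theorem dvd_pow_of_roots [IsAlgClosed k] {q : k[X]} (hq : q ≠ 0) {S : Finset k}
    (h : ∀ x, q.eval x = 0 → x ∈ S) : q ∣ (∏ t₀ ∈ S, (X - C t₀)) ^ q.natDegree := by
  have h1 : q.Splits := IsAlgClosed.splits q
  have h2 := h1.eq_prod_roots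
  have h3 : (q.roots.map fun a => X - C a).prod ∣ (∏ t₀ ∈ S, (X - C t₀)) ^
      (q.roots.map fun a => X - C a).card := by
    refine prod_dvd_pow _ fun f hf => ?_
    obtain ⟨a, ha, rfl⟩ := Multiset.mem_map.1 hf
    exact Finset.dvd_prod_of_mem (fun t₀ => X - C t₀) (h a (by
      rw [mem_roots hq] at ha
      exact ha))
  rw [Multiset.card_map, ← h1.natDegree_eq_card_roots] at h3
  have h4 : q ∣ (q.roots.map fun a => X - C a).prod := by
    conv_lhs => rw [h2]
    have hu : IsUnit (C q.leadingCoeff) := isUnit_C.2 (isUnit_iff_ne_zero.2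
      (leadingCoeff_ne_zero.2 hq))
    exact (hu.mul_left_dvd).2 dvd_rfl
  exact h4.trans h3

end

theorem t_ratp : S_ratp.{u} := by
  intro k E Λ _ _ _ _ _ _ _ t s G _ hA hG pp S₀ y hy hint
  obtain ⟨r, q, hq, hyr⟩ := hG.rat y hy
  -- coprime representation
  obtain ⟨r', q', hq', hcop, hyr'⟩ : ∃ r' q' : k[X], q' ≠ 0 ∧ IsCoprime r' q' ∧
      y * aeval t q' = aeval t r' := by
    classical
    obtain ⟨g, r', q', hrg, hqg, hcop⟩ : ∃ g r' q' : k[X], r = g * r' ∧ q = g * q' ∧
        IsCoprime r' q' := by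
      have hg0 : EuclideanDomain.gcd r q ≠ 0 := fun h => hq (EuclideanDomain.gcd_eq_zero_iff.1 h).2
      obtain ⟨r', hr'⟩ := EuclideanDomain.gcd_dvd_left r q
      obtain ⟨q', hq'⟩ := EuclideanDomain.gcd_dvd_right r q
      refine ⟨EuclideanDomain.gcd r q, r', q', hr', hq', ?_⟩
      have hb := EuclideanDomain.gcd_eq_gcd_ab r q
      refine ⟨EuclideanDomain.gcdA r q, EuclideanDomain.gcdB r q, ?_⟩
      have h1 : EuclideanDomain.gcd r q * (EuclideanDomain.gcdA r q * r' +
          EuclideanDomain.gcdB r q * q') = EuclideanDomain.gcd r q * 1 := by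
        calc _ = (EuclideanDomain.gcd r q * r') * EuclideanDomain.gcdA r q +
              (EuclideanDomain.gcd r q * q') * EuclideanDomain.gcdB r q := by ring
          _ = r * EuclideanDomain.gcdA r q + q * EuclideanDomain.gcdB r q := by rw [← hr', ← hq']
          _ = _ := by rw [← hb, mul_one]
      exact mul_left_cancel₀ hg0 h1
    have hg : g ≠ 0 := by
      rintro rfl
      exact hq (by rw [hqg, zero_mul])
    have hq0 : q' ≠ 0 := by
      rintro rfl
      exact hq (by rw [hqg, mul_zero])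
    refine ⟨r', q', hq0, hcop, ?_⟩
    have hgt : aeval t g ≠ 0 := fun h => hg ((transcendental_iff.1 hG.trans) g h)
    have hqt : aeval t q' ≠ 0 := fun h => hq0 ((transcendental_iff.1 hG.trans) q' h)
    rw [hyr, hrg, hqg, map_mul, map_mul]
    field_simp
  have htr : ∀ f : k[X], f ≠ 0 → aeval t f ≠ 0 := fun f hf h =>
    hf ((transcendental_iff.1 hG.trans) f h)
  -- the roots of the denominator
  have hroots : ∀ x, q'.eval x = 0 → x ∈ S₀ := by
    intro x hx
    by_contra hxS
    have h1 := hint.1 x hxS 1 G.one_mem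
    rw [AlgEquiv.one_apply] at h1
    have h2 := congrArg (pp.ι x) hyr'
    rw [map_mul, ← Polynomial.aeval_algHom_apply, ← Polynomial.aeval_algHom_apply, pp.hι] at h2
    have h3 : r'.eval x ≠ 0 := by
      intro h
      obtain ⟨a, b, hab⟩ := hcop
      have := congrArg (Polynomial.eval x) hab
      rw [eval_add, eval_mul, eval_mul, h, hx, mul_zero, mul_zero, add_zero, eval_one] at this
      exact zero_ne_one this
    have h4 := norm_unit hA h3
    have h5 := norm_near hA x q'
    rw [hx, map_zero, sub_zero] at h5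
    rw [← h2, norm_mul] at h4
    have h6 : ‖pp.ι x y‖ * ‖aeval (algebraMap k Λ x + s) q'‖ ≤
        1 * ‖aeval (algebraMap k Λ x + s) q'‖ := mul_le_mul_of_nonneg_right h1 (norm_nonneg _)
    linarith
  have hdvd := dvd_pow_of_roots hq' hroots
  refine ⟨q'.natDegree, fun M hM => ?_⟩
  set A : k[X] := ∏ t₀ ∈ S₀, (X - C t₀) with hAdef
  obtain ⟨h, hh⟩ : q' ∣ A ^ M := hdvd.trans (pow_dvd_pow A hM)
  have hA0 : A.Monic := monic_prod_of_monic _ _ fun i _ => monic_X_sub_C i
  have hAd : (A ^ M).natDegree = M * S₀.card := by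
    rw [hA0.natDegree_pow, hAdef, natDegree_prod_of_monic _ _ fun i _ => monic_X_sub_C i]
    simp
  have heq : y * aeval t A ^ M = aeval t (r' * h) := by
    rw [← map_pow, hh, map_mul, map_mul, ← mul_assoc, hyr']
  refine ⟨r' * h, ?_, heq⟩
  by_cases hP : r' * h = 0
  · rw [hP, natDegree_zero]
    exact Nat.zero_le _
  · have h1 := hint.2 1 G.one_mem
    rw [AlgEquiv.one_apply] at h1
    have h2 : ‖pp.ιi (y * aeval t A ^ M)‖ = ‖pp.ιi (aeval t (r' * h))‖ := by rw [heq]
    rw [← map_pow, map_mul, norm_mul, ← Polynomial.aeval_algHom_apply,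
      ← Polynomial.aeval_algHom_apply, pp.hιi, norm_inf hA hP, norm_inf hA (pow_ne_zero M hA0.ne_zero),
      hAd] at h2
    have h3 : Real.exp ((r' * h).natDegree) ≤ Real.exp ((M * S₀.card : ℕ) : ℝ) := by
      rw [← h2]
      exact mul_le_of_le_one_left (Real.exp_pos _).le h1
    rw [Real.exp_le_exp] at h3
    exact_mod_cast h3

end Pool.Agent.Q24.SU
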