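import Pool.Agent.Q41.SU.Stm5

/-!
# SU-N1: reduction to an almost surjective stable set
-/

set_option autoImplicit false

namespace Pool.Agent.Q24.SU

open Finset Polynomial Pool.Agent.Q41.SU
open scoped Classical

universe u

section

variable {E : Type u} [Field E] {p q : E[X]} {d : ℕ}

theorem fib (hd : 1 ≤ d) (hp : p.natDegree ≤ d) (hq : q.natDegree = d) (hco : IsCoprime p q)
    {P : Finset E} (hP : Stab p q P) (y : E) :
    (P.filter fun z => p.eval z / q.eval z = y).card ≤ d := by
  have h0 : p - C y * q ≠ 0 := by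
    intro h
    have h1 : q ∣ p := ⟨C y, by rw [sub_eq_zero.1 h]; ring⟩
    have h2 : IsUnit q := hco.symm.isUnit_of_dvd' dvd_rfl h1
    have h3 := natDegree_eq_zero_of_isUnit h2
    omega
  have h1 : (P.filter fun z => p.eval z / q.eval z = y) ⊆ (p - C y * q).roots.toFinset := by
    intro z hz
    rw [mem_filter] at hz
    rw [Multiset.mem_toFinset, mem_roots h0, IsRoot, eval_sub, eval_mul, eval_C]
    have h2 := (hP z hz.1).1
    rw [← hz.2, div_mul_cancel₀ _ h2, sub_self]
  refine (card_le_card h1).trans ((Multiset.toFinset_card_le _).trans ((card_roots' _).trans ?_))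
  refine (natDegree_sub_le _ _).trans (max_le hp ?_)
  exact (natDegree_C_mul_le _ _).trans hq.le

theorem fibs (hd : 1 ≤ d) (hp : p.natDegree ≤ d) (hq : q.natDegree = d) (hco : IsCoprime p q)
    {P : Finset E} (hP : Stab p q P) (Q : Finset E) :
    (P.filter fun z => p.eval z / q.eval z ∈ Q).card ≤ d * Q.card := by
  have h1 : (P.filter fun z => p.eval z / q.eval z ∈ Q) ⊆
      Q.biUnion fun y => P.filter fun z => p.eval z / q.eval z = y := by
    intro z hz
    rw [mem_filter] at hz
    rw [mem_biUnion]
    exact ⟨_, hz.2, mem_filter.2 ⟨hz.1, rfl⟩⟩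
  refine (card_le_card h1).trans (card_biUnion_le.trans ?_)
  refine (sum_le_card_nsmul _ _ d fun y _ => fib hd hp hq hco hP y).trans ?_
  rw [smul_eq_mul, mul_comm]

theorem it_mem {P : Finset E} (hP : Stab p q P) {z : E} (hz : z ∈ P) (n : ℕ) :
    (fun z => p.eval z / q.eval z)^[n] z ∈ P := by
  induction n with
  | zero => exact hz
  | succ n ih =>
    rw [Function.iterate_succ_apply']
    exact (hP _ ih).2

theorem fibn (hd : 1 ≤ d) (hp : p.natDegree ≤ d) (hq : q.natDegree = d) (hco : IsCoprime p q)
    {P : Finset E} (hP : Stab p q P) (Q : Finset E) (n : ℕ) :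
    (P.filter fun z => (fun z => p.eval z / q.eval z)^[n] z ∈ Q).card ≤ d ^ n * Q.card := by
  induction n with
  | zero =>
    rw [pow_zero, one_mul]
    refine card_le_card fun z hz => ?_
    exact (mem_filter.1 hz).2
  | succ n ih =>
    have h1 : (P.filter fun z => (fun z => p.eval z / q.eval z)^[n + 1] z ∈ Q) ⊆
        P.filter fun z => p.eval z / q.eval z ∈
          (P.filter fun z => (fun z => p.eval z / q.eval z)^[n] z ∈ Q) := by
      intro z hz
      rw [mem_filter] at hz ⊢
      refine ⟨hz.1, ?_⟩
      rw [mem_filter]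
      refine ⟨(hP z hz.1).2, ?_⟩
      have := hz.2
      rw [Function.iterate_succ_apply] at this
      exact this
    refine (card_le_card h1).trans ((fibs hd hp hq hco hP _).trans ?_)
    calc d * _ ≤ d * (d ^ n * Q.card) := Nat.mul_le_mul_left d ih
      _ = d ^ (n + 1) * Q.card := by ring

end

theorem t_red : S_red.{u} := by
  intro d N' hd
  refine ⟨d ^ N' * N' + 1, fun E _ p q hp hq hco P hP hN => ?_⟩
  set f : E → E := fun z => p.eval z / q.eval z with hf
  set P0 := P.filter fun z => ∃ m, 0 < m ∧ f^[m] z = z with hP0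
  by_cases hc : N' ≤ P0.card
  · refine ⟨P0, filter_subset _ _, ?_, hc, ?_⟩
    · intro z hz
      rw [hP0, mem_filter] at hz
      obtain ⟨hzP, m, hm, hzm⟩ := hz
      refine ⟨(hP z hzP).1, ?_⟩
      rw [hP0, mem_filter]
      refine ⟨(hP z hzP).2, m, hm, ?_⟩
      show f^[m] (f z) = f z
      rw [← Function.iterate_succ_apply, Function.iterate_succ_apply', hzm]
    · unfold Sur
      have : {y : E | y ∈ P0 ∧ ∀ z ∈ P0, p.eval z / q.eval z ≠ y} = ∅ := by
        rw [Set.eq_empty_iff_forall_notMem]
        rintro y ⟨hy, hy'⟩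
        have hy2 := hy
        rw [hP0, mem_filter] at hy2
        obtain ⟨hyP, m, hm, hym⟩ := hy2
        refine hy' (f^[m - 1] y) ?_ ?_
        · rw [hP0, mem_filter]
          refine ⟨it_mem hP hyP _, m, hm, ?_⟩
          rw [← Function.iterate_add_apply, add_comm, Function.iterate_add_apply, hym]
        · show f (f^[m - 1] y) = y
          rw [← Function.iterate_succ_apply' f, Nat.succ_eq_add_one, Nat.sub_add_cancel hm, hym]
      rw [this, Set.ncard_empty]
      exact Nat.zero_le _
  · push Not at hc
    have h1 := fibn hd hp hq hco hP P0 N'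
    have h2 : ∃ z ∈ P, f^[N'] z ∉ P0 := by
      by_contra hcon
      push Not at hcon
      have h3 : (P.filter fun z => f^[N'] z ∈ P0) = P := filter_true_of_mem hcon
      rw [h3] at h1
      have h4 : d ^ N' * P0.card ≤ d ^ N' * N' := Nat.mul_le_mul_left _ hc.le
      omega
    obtain ⟨z, hz, hzn⟩ := h2
    have hnp : ∀ i ≤ N', ∀ m, 0 < m → f^[m] (f^[i] z) ≠ f^[i] z := by
      intro i hi m hm h
      apply hzn
      rw [hP0, mem_filter]
      refine ⟨it_mem hP hz _, m, hm, ?_⟩
      obtain ⟨j, rfl⟩ : ∃ j, N' = j + i := ⟨N' - i, by omega⟩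
      rw [Function.iterate_add_apply, ← Function.iterate_add_apply, add_comm m j,
        Function.iterate_add_apply, h]
    have hinj : ∀ i ≤ N', ∀ j ≤ N', f^[i] z = f^[j] z → i = j := by
      have key : ∀ i ≤ N', ∀ j, i < j → f^[i] z ≠ f^[j] z := by
        intro i hi j hij h
        refine hnp i hi (j - i) (by omega) ?_
        rw [← Function.iterate_add_apply, Nat.sub_add_cancel hij.le, h]
      intro i hi j hj h
      rcases lt_trichotomy i j with h' | h' | h'
      · exact absurd h (key i hi j h')
      · exact h'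
      · exact absurd h.symm (key j hj i h')
    set P' := P.filter fun y => ∃ n, f^[n] z = y with hP'
    refine ⟨P', filter_subset _ _, ?_, ?_, ?_⟩
    · intro y hy
      rw [hP', mem_filter] at hy
      obtain ⟨hyP, n, hn⟩ := hy
      refine ⟨(hP y hyP).1, ?_⟩
      rw [hP', mem_filter]
      refine ⟨(hP y hyP).2, n + 1, ?_⟩
      rw [Function.iterate_succ_apply', hn]
    · have h3 : ((range N').image fun i => f^[i] z) ⊆ P' := by
        intro y hy
        rw [mem_image] at hy
        obtain ⟨i, _, rfl⟩ := hy
        rw [hP', mem_filter]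
        exact ⟨it_mem hP hz _, i, rfl⟩
      have h4 := card_le_card h3
      rw [card_image_of_injOn, card_range] at h4
      · exact h4
      · intro i hi j hj h
        rw [coe_range, Set.mem_Iio] at hi hj
        exact hinj i hi.le j hj.le h
    · unfold Sur
      have : {y : E | y ∈ P' ∧ ∀ z ∈ P', p.eval z / q.eval z ≠ y} ⊆ {z} := by
        rintro y ⟨hy, hy'⟩
        rw [hP', mem_filter] at hy
        obtain ⟨hyP, n, hn⟩ := hy
        rcases Nat.eq_zero_or_pos n with rfl | hn0
        · exact hn.symm
        · exfalso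
          refine hy' (f^[n - 1] z) ?_ ?_
          · rw [hP', mem_filter]
            exact ⟨it_mem hP hz _, n - 1, rfl⟩
          · show f (f^[n - 1] z) = y
            rw [← Function.iterate_succ_apply' f, Nat.succ_eq_add_one, Nat.sub_add_cancel hn0, hn]
      refine (Set.ncard_le_ncard this (Set.finite_singleton _)).trans ?_
      rw [Set.ncard_singleton]

end Pool.Agent.Q24.SU
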