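import Pool.Agent.Q24.SU.Ratp

/-!
# SU-T4: the norm polynomial
-/

set_option autoImplicit false
set_option linter.unusedSectionVars false
set_option linter.unusedVariables false

namespace Pool.Agent.Q24.SU

open Finset Polynomial Pool.Agent.Q41.SU TensorProduct

universe u

theorem bd_map {A B : Type*} [CommRing A] [CommRing B] (f : A →+* B) (a b : ℕ) (x y : II a b → A) :
    f (bd a b x y) = bd a b (fun l => f (x l)) (fun l => f (y l)) := by
  unfold bd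
  rw [RingHom.map_det]
  congr 1
  ext l c
  simp

section

variable {k E Λ : Type u} [Field k] [Field E] [Algebra k E] [NormedField Λ] [IsUltrametricDist Λ]
  [Algebra k Λ] {t : E} {s : Λ}

/-- the ring of the integral elements -/
def RR (hA : IsAmb k Λ s) (pp : PlSys k E Λ t s) (G : Subgroup (E ≃ₐ[k] E)) (S₀ : Finset k) :
    Subalgebra k E where
  carrier := {y | pp.Int G S₀ y}
  mul_mem' := by
    intro x y hx hy
    refine ⟨fun t₀ h g hg => ?_, fun g hg => ?_⟩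
    · rw [map_mul, map_mul, norm_mul]
      exact mul_le_one₀ (hx.1 t₀ h g hg) (norm_nonneg _) (hy.1 t₀ h g hg)
    · rw [map_mul, map_mul, norm_mul]
      exact mul_le_one₀ (hx.2 g hg) (norm_nonneg _) (hy.2 g hg)
  add_mem' := by
    intro x y hx hy
    refine ⟨fun t₀ h g hg => ?_, fun g hg => ?_⟩
    · rw [map_add, map_add]
      exact (IsUltrametricDist.norm_add_le_max _ _).trans (max_le (hx.1 t₀ h g hg) (hy.1 t₀ h g hg))
    · rw [map_add, map_add]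
      exact (IsUltrametricDist.norm_add_le_max _ _).trans (max_le (hx.2 g hg) (hy.2 g hg))
  algebraMap_mem' := by
    intro c
    refine ⟨fun t₀ h g hg => ?_, fun g hg => ?_⟩
    · rw [AlgEquiv.commutes, AlgHom.commutes]
      exact na hA c
    · rw [AlgEquiv.commutes, AlgHom.commutes]
      exact na hA c

theorem RR_stable (hA : IsAmb k Λ s) (pp : PlSys k E Λ t s) {G : Subgroup (E ≃ₐ[k] E)}
    {S₀ : Finset k} {g : E ≃ₐ[k] E} (hg : g ∈ G) {y : E} (hy : y ∈ RR hA pp G S₀) :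
    g y ∈ RR hA pp G S₀ := by
  refine ⟨fun t₀ h g' hg' => ?_, fun g' hg' => ?_⟩
  · exact hy.1 t₀ h (g' * g) (G.mul_mem hg' hg)
  · exact hy.2 (g' * g) (G.mul_mem hg' hg)

theorem ev_C_mul {A : Type*} [CommRing A] [Algebra k A] (P Q : k[X]) (x y : A) :
    ev (C P * Q.map C) x y = aeval x P * aeval y Q := by
  unfold ev
  rw [eval₂_mul, eval₂_C, eval₂_map]
  congr 1
  rw [aeval_def]
  congr 1
  ext c
  simp

theorem ev_add {A : Type*} [CommRing A] [Algebra k A] (F G : k[X][X]) (x y : A) :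
    ev (F + G) x y = ev F x y + ev G x y := by
  unfold ev
  rw [eval₂_add]

theorem ev_smul {A : Type*} [CommRing A] [Algebra k A] (c : k) (F : k[X][X]) (x y : A) :
    ev (C (C c) * F) x y = c • ev F x y := by
  unfold ev
  rw [eval₂_mul, eval₂_C]
  simp [Algebra.smul_def]

/-- the property of the theorem -/
def Gd (t : E) (A : k[X]) (n : ℕ) (z : E ⊗[k] E) : Prop :=
  ∃ M₀ : ℕ, ∀ M ≥ M₀, ∃ F : k[X][X], F.natDegree ≤ M * n ∧ (∀ i, (F.coeff i).natDegree ≤ M * n) ∧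
    ev F (t ⊗ₜ[k] (1 : E)) ((1 : E) ⊗ₜ[k] t) = ((aeval t A ^ M) ⊗ₜ[k] (aeval t A ^ M)) * z

theorem Gd_zero (A : k[X]) (n : ℕ) : Gd t A n 0 :=
  ⟨0, fun M _ => ⟨0, by simp, by simp, by
    rw [mul_zero]
    unfold ev
    simp⟩⟩

theorem Gd_add {A : k[X]} {n : ℕ} {z z' : E ⊗[k] E} (h : Gd t A n z) (h' : Gd t A n z') :
    Gd t A n (z + z') := by
  obtain ⟨M₀, h⟩ := h
  obtain ⟨M₁, h'⟩ := h'
  refine ⟨max M₀ M₁, fun M hM => ?_⟩
  obtain ⟨F, a1, a2, a3⟩ := h M (le_trans (le_max_left _ _) hM)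
  obtain ⟨F', b1, b2, b3⟩ := h' M (le_trans (le_max_right _ _) hM)
  refine ⟨F + F', (natDegree_add_le _ _).trans (max_le a1 b1), fun i => ?_, ?_⟩
  · rw [coeff_add]
    exact (natDegree_add_le _ _).trans (max_le (a2 i) (b2 i))
  · rw [ev_add, a3, b3, mul_add]

theorem Gd_smul {A : k[X]} {n : ℕ} {z : E ⊗[k] E} (c : k) (h : Gd t A n z) : Gd t A n (c • z) := by
  obtain ⟨M₀, h⟩ := h
  refine ⟨M₀, fun M hM => ?_⟩
  obtain ⟨F, a1, a2, a3⟩ := h M hM
  refine ⟨C (C c) * F, (natDegree_C_mul_le _ _).trans a1, fun i => ?_, ?_⟩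
  · rw [coeff_C_mul]
    exact (natDegree_C_mul_le _ _).trans (a2 i)
  · rw [ev_smul, a3, mul_smul_comm]

theorem Gd_tmul {A : k[X]} {n : ℕ} {v w : E}
    (hv : ∃ M₀ : ℕ, ∀ M ≥ M₀, ∃ P : k[X], P.natDegree ≤ M * n ∧ v * aeval t A ^ M = aeval t P)
    (hw : ∃ M₀ : ℕ, ∀ M ≥ M₀, ∃ P : k[X], P.natDegree ≤ M * n ∧ w * aeval t A ^ M = aeval t P) :
    Gd t A n (v ⊗ₜ[k] w) := by
  obtain ⟨M₀, hv⟩ := hv
  obtain ⟨M₁, hw⟩ := hw
  refine ⟨max M₀ M₁, fun M hM => ?_⟩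
  obtain ⟨P, a1, a2⟩ := hv M (le_trans (le_max_left _ _) hM)
  obtain ⟨Q, b1, b2⟩ := hw M (le_trans (le_max_right _ _) hM)
  refine ⟨C P * Q.map C, ?_, fun i => ?_, ?_⟩
  · exact (natDegree_C_mul_le _ _).trans ((natDegree_map_le).trans b1)
  · rw [coeff_C_mul, coeff_map]
    exact (natDegree_mul_C_le _ _).trans a1
  · rw [ev_C_mul]
    have e1 : aeval (t ⊗ₜ[k] (1 : E)) P = (aeval t P) ⊗ₜ[k] (1 : E) :=
      Polynomial.aeval_algHom_apply (Algebra.TensorProduct.includeLeft : E →ₐ[k] E ⊗[k] E) t P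
    have e2 : aeval ((1 : E) ⊗ₜ[k] t) Q = (1 : E) ⊗ₜ[k] (aeval t Q) :=
      Polynomial.aeval_algHom_apply (Algebra.TensorProduct.includeRight : E →ₐ[k] E ⊗[k] E) t Q
    rw [e1, e2, Algebra.TensorProduct.tmul_mul_tmul, mul_one, one_mul, ← a2, ← b2,
      Algebra.TensorProduct.tmul_mul_tmul, mul_comm v, mul_comm w]

end

theorem t_ten (h1 : S_desc.{u}) : S_ten.{u} := by
  intro k E Λ _ _ _ _ _ _ _ t s G _ hA hG pp S₀ a b x hx
  have h2 := t_ratp k E Λ t s G hA hG pp S₀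
  set R := RR hA pp G S₀ with hR
  set N : E ⊗[k] E := ∏ g : G, ∏ h : G, bd a b
    (fun l => ((g : E ≃ₐ[k] E) (x l)) ⊗ₜ[k] (1 : E))
    (fun l => (1 : E) ⊗ₜ[k] ((h : E ≃ₐ[k] E) (x l))) with hN
  have hcard : (∏ t₀ ∈ S₀, (X - C t₀) : k[X]) = ∏ t₀ ∈ S₀, (X - C t₀) := rfl
  -- the element comes from `R ⊗ R`
  let ψ : R ⊗[k] R →ₐ[k] E ⊗[k] E := Algebra.TensorProduct.map R.val R.val
  have hrange : ∃ w : R ⊗[k] R, ψ w = N := by
    refine ⟨∏ g : G, ∏ h : G, bd a b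
      (fun l => (⟨(g : E ≃ₐ[k] E) (x l), RR_stable hA pp g.2 (hx l)⟩ : R) ⊗ₜ[k] (1 : R))
      (fun l => (1 : R) ⊗ₜ[k] (⟨(h : E ≃ₐ[k] E) (x l), RR_stable hA pp h.2 (hx l)⟩ : R)), ?_⟩
    rw [hN, map_prod]
    refine prod_congr rfl fun g _ => ?_
    rw [map_prod]
    refine prod_congr rfl fun h _ => ?_
    have := bd_map (ψ : R ⊗[k] R →+* E ⊗[k] E) a b
      (fun l => (⟨(g : E ≃ₐ[k] E) (x l), RR_stable hA pp g.2 (hx l)⟩ : R) ⊗ₜ[k] (1 : R))
      (fun l => (1 : R) ⊗ₜ[k] (⟨(h : E ≃ₐ[k] E) (x l), RR_stable hA pp h.2 (hx l)⟩ : R))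
    exact this
  have hspan : N ∈ Submodule.span k {y : E ⊗[k] E | ∃ v ∈ R.toSubmodule, ∃ w ∈ R.toSubmodule,
      y = v ⊗ₜ[k] w} := by
    obtain ⟨w, hw⟩ := hrange
    rw [← hw]
    clear hw
    induction w using TensorProduct.induction_on with
    | zero => rw [map_zero]; exact Submodule.zero_mem _
    | tmul v w => exact Submodule.subset_span ⟨v, v.2, w, w.2, rfl⟩
    | add y z hy hz => rw [map_add]; exact Submodule.add_mem _ hy hz
  have hinv : ∀ g ∈ G, ∀ h ∈ G, Algebra.TensorProduct.map (g : E →ₐ[k] E) (h : E →ₐ[k] E) N = N := by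
    intro g' hg' h' hh'
    rw [hN, map_prod]
    refine Fintype.prod_equiv (Equiv.mulLeft (⟨g', hg'⟩ : G)) _ _ fun g => ?_
    rw [map_prod]
    refine Fintype.prod_equiv (Equiv.mulLeft (⟨h', hh'⟩ : G)) _ _ fun h => ?_
    have := bd_map (Algebra.TensorProduct.map (g' : E →ₐ[k] E) (h' : E →ₐ[k] E) :
        E ⊗[k] E →+* E ⊗[k] E) a b
      (fun l => ((g : E ≃ₐ[k] E) (x l)) ⊗ₜ[k] (1 : E))
      (fun l => (1 : E) ⊗ₜ[k] ((h : E ≃ₐ[k] E) (x l)))
    refine Eq.trans this ?_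
    congr 1
    · funext l
      simp
    · funext l
      simp
  have hd := h1 k E G R.toSubmodule R.toSubmodule (fun g hg y hy => RR_stable hA pp hg hy)
    (fun g hg y hy => RR_stable hA pp hg hy) N hspan hinv
  have hgd : Gd t (∏ t₀ ∈ S₀, (X - C t₀)) S₀.card N := by
    clear_value N
    clear hN hrange hspan hinv
    induction hd using Submodule.span_induction with
    | mem z hz =>
      obtain ⟨v, hv, hv', w, hw, hw', rfl⟩ := hz
      exact Gd_tmul (h2 v hv' hv) (h2 w hw' hw)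
    | zero => exact Gd_zero _ _
    | add y z _ _ hy hz => exact Gd_add hy hz
    | smul c y _ hy => exact Gd_smul c hy
  exact hgd

end Pool.Agent.Q24.SU
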